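import Pool.Agent.H914R2.KDefs2
import Pool.Agent.H914R2.DDefs
import Pool.Agent.W534.PoleDefs
import Pool.Agent.Y163.Defs

/-!
# Flat classes which are algebraic in a point of the base

In the intended use `S` is a smooth connected complex variety, `k` is its function field, the
varieties of the class `𝒱` are the generic fibres of smooth projective families over `S`, `W.H Y` is
the rational cohomology of the fibre over a base point and `W.cl Y` gives the classes of the relative
cycles. The group `Γ` is the fundamental group of `S`, which acts on the cohomology of the fibre. A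
class fixed by `Γ` is a global section of the local system of the cohomology groups of the fibres.
-/

open CategoryTheory AlgebraicGeometry

universe u v w x

namespace Pool.Agent.N198.VI

open Pool.Agent.H914 VarClass Obj WeilCohomology

variable {k : Type u} [Field k] {𝒱 : VarClass k} {ops : CycleOps 𝒱}

/-- The monodromy action of the group `Γ` on the cohomology of the varieties of the class, and the
algebraic classes of the fibres over the points of `S`. -/
structure FlatData (W : WeilCohomology.{u, v} ops) (Γ : Type w) (S : Type x) where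
  /-- the action of `Γ` on `H(Y)` -/
  act : ∀ Y : 𝒱.Obj, Γ → W.H Y → W.H Y
  /-- `alg s Y j c`: the class `c` in `H^(2 j)(Y)`, transported to the fibre of `Y` over the point
  `s`, is a linear combination of classes of algebraic cycles of this fibre -/
  alg : S → ∀ Y : 𝒱.Obj, ℕ → W.H Y → Prop

/-- The class of a cycle. -/
noncomputable def cycleClass (W : WeilCohomology.{u, v} ops) (Y : 𝒱.Obj) (z : Y.Cycles) : W.H Y :=
  W.cl Y z

/-- The pull-back of a class. -/
noncomputable def pullBack (W : WeilCohomology.{u, v} ops) {Y Z : 𝒱.Obj} (f : Y ⟶ Z) (a : W.H Z) :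
    W.H Y := W.map f a

/-- The push-forward of a class. -/
noncomputable def pushForward (W : WeilCohomology.{u, v} ops) {Y Z : 𝒱.Obj} (f : Y ⟶ Z)
    (a : W.H Y) : W.H Z := W.push f a

variable {W : WeilCohomology.{u, v} ops} {Γ : Type w} [Group Γ] {S : Type x}

/-- The group acts. -/
def ActGroup (F : FlatData W Γ S) : Prop :=
  ∀ (Y : 𝒱.Obj) (a : W.H Y), F.act Y 1 a = a ∧ ∀ g h : Γ, F.act Y (g * h) a =
    F.act Y g (F.act Y h a)

/-- The action is additive. -/
def ActAdd (F : FlatData W Γ S) : Prop :=
  ∀ (Y : 𝒱.Obj) (g : Γ) (a b : W.H Y), F.act Y g (a + b) = F.act Y g a + F.act Y g b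

/-- The action is linear. -/
def ActSmul (F : FlatData W Γ S) : Prop :=
  ∀ (Y : 𝒱.Obj) (g : Γ) (r : W.K) (a : W.H Y), F.act Y g (r • a) = r • F.act Y g a

/-- The action is compatible with the products. -/
def ActMul (F : FlatData W Γ S) : Prop :=
  ∀ (Y : 𝒱.Obj) (g : Γ) (a b : W.H Y), F.act Y g (a * b) = F.act Y g a * F.act Y g b

/-- The action is compatible with the pull-backs. -/
def ActMap (F : FlatData W Γ S) : Prop :=
  ∀ (Y Z : 𝒱.Obj) (f : Y ⟶ Z) (g : Γ) (a : W.H Z),
    F.act Y g (pullBack W f a) = pullBack W f (F.act Z g a)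

/-- The action is compatible with the push-forwards. -/
def ActPush (F : FlatData W Γ S) : Prop :=
  ∀ (Y Z : 𝒱.Obj) (f : Y ⟶ Z) (g : Γ) (a : W.H Y),
    F.act Z g (pushForward W f a) = pushForward W f (F.act Y g a)

/-- The classes of the relative cycles are invariant. -/
def ActCl (F : FlatData W Γ S) : Prop :=
  ∀ (Y : 𝒱.Obj) (j : ℕ) (z : Y.Cycles), Y.IsCyc j z → ∀ g : Γ,
    F.act Y g (cycleClass W Y z) = cycleClass W Y z

/-- The classes of the relative cycles are algebraic in all points. -/
def AlgCl (F : FlatData W Γ S) : Prop :=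
  ∀ (s : S) (Y : 𝒱.Obj) (j : ℕ) (z : Y.Cycles), Y.IsCyc j z → F.alg s Y j (cycleClass W Y z)

/-- The classes which are algebraic in `s` are of degree `2 j`. -/
def AlgGr (F : FlatData W Γ S) : Prop :=
  ∀ (s : S) (Y : 𝒱.Obj) (j : ℕ) (c : W.H Y), F.alg s Y j c → c ∈ W.gr Y (2 * j)

/-- They are stable under sums and multiples. -/
def AlgLinear (F : FlatData W Γ S) : Prop :=
  ∀ (s : S) (Y : 𝒱.Obj) (j : ℕ) (a : W.H Y), F.alg s Y j a →
    (∀ b, F.alg s Y j b → F.alg s Y j (a + b)) ∧ ∀ r : W.K, F.alg s Y j (r • a)

/-- They are stable under products. -/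
def AlgMul (F : FlatData W Γ S) : Prop :=
  ∀ (s : S) (Y : 𝒱.Obj) (i j : ℕ) (a b : W.H Y), F.alg s Y i a → F.alg s Y j b →
    F.alg s Y (i + j) (a * b)

/-- They are stable under pull-backs. -/
def AlgMap (F : FlatData W Γ S) : Prop :=
  ∀ (s : S) (Y Z : 𝒱.Obj) (f : Y ⟶ Z) (j : ℕ) (a : W.H Z), F.alg s Z j a →
    F.alg s Y j (pullBack W f a)

/-- They are stable under push-forwards. -/
def AlgPush (F : FlatData W Γ S) : Prop :=
  ∀ (s : S) (Y Z : 𝒱.Obj) (f : Y ⟶ Z) (j l : ℕ) (a : W.H Y), l + Y.dim = j + Z.dim →
    F.alg s Y j a → F.alg s Z l (pushForward W f a)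

/-- All these conditions. -/
structure IsFlatSystem (F : FlatData W Γ S) : Prop where
  act_group : ActGroup F
  act_add : ActAdd F
  act_smul : ActSmul F
  act_mul : ActMul F
  act_map : ActMap F
  act_push : ActPush F
  act_cl : ActCl F
  alg_cl : AlgCl F
  alg_gr : AlgGr F
  alg_linear : AlgLinear F
  alg_mul : AlgMul F
  alg_map : AlgMap F
  alg_push : AlgPush F

/-- The class `c` in `H^(2 j)(Y)` is invariant under `Γ`, and algebraic in the point `s`. -/
def FlatAlg (F : FlatData W Γ S) (s : S) (Y : 𝒱.Obj) (j : ℕ) (c : W.H Y) : Prop :=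
  F.alg s Y j c ∧ ∀ g : Γ, F.act Y g c = c

/-- The variational Hodge conjecture for the family `Y` and the point `s`: every invariant class
which is algebraic in `s` is algebraic in all points. -/
def VariationalHodgeAt (F : FlatData W Γ S) (s : S) (Y : 𝒱.Obj) : Prop :=
  ∀ j c, FlatAlg F s Y j c → ∀ t, F.alg t Y j c

/-- The invariant classes which are algebraic in `s` are linear combinations of classes of relative
cycles. -/
def FlatAreRelative (F : FlatData W Γ S) (s : S) (Y : 𝒱.Obj) : Prop :=
  ∀ j c, FlatAlg F s Y j c → c ∈ spanCycles W Y j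

/-- Both, and homological and numerical equivalence agree on `Y`. -/
def AllGood (F : FlatData W Γ S) (s : S) (Y : 𝒱.Obj) : Prop :=
  VariationalHodgeAt F s Y ∧ FlatAreRelative F s Y ∧ HomEqNum W Y

/-- The number `m n`: the dimension of the space of the invariant classes in the middle degree of
`X ^ (2 n + 2)` which are algebraic in `s`. -/
noncomputable def flatMid (F : FlatData W Γ S) (s : S) (X : 𝒱.Obj) (n : ℕ) : ℕ :=
  Set.finrank W.K {c : W.H (Pool.Agent.Y163.sq X n) |
    FlatAlg F s (Pool.Agent.Y163.sq X n) ((n + 1) * X.dim) c}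

/-- The number `r n`: the rank of the group of the relative cycles in the middle degree of
`X ^ (2 n + 2)` modulo numerical equivalence. -/
noncomputable def relMid (ops : CycleOps 𝒱) (X : 𝒱.Obj) (n : ℕ) : ℕ :=
  Pool.Agent.W534.numRank ops (Pool.Agent.Y163.sq X n) ((n + 1) * X.dim)

/-- The sum of the Betti numbers. -/
noncomputable def totalBetti (W : WeilCohomology.{u, v} ops) (X : 𝒱.Obj) : ℕ :=
  Module.finrank W.K (W.H X)

end Pool.Agent.N198.VI
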