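import Pool.Agent.N198.VI.Defs
import Pool.Agent.N198.LI.Main

/-!
# The index law for the variational Hodge conjecture
-/

open CategoryTheory AlgebraicGeometry

universe u v w x

namespace Pool.Agent.N198.VI

open Module
open Pool.Agent.H914 Pool.Agent.H447 Pool.Agent.W534 Pool.Agent.Y163 VarClass Obj WeilCohomology
  Pool.Agent.R940 Pool.Agent.R920.PL
open Pool.Agent.Y133.Half (ClassPred)

variable {k : Type u} [Field k] {𝒱 : VarClass k} {ops : CycleOps 𝒱}
  {W : WeilCohomology.{u, v} ops} {X Y Z : 𝒱.Obj} {Γ : Type w} [Group Γ] {S : Type x}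

lemma alg_zero {F : FlatData W Γ S} (hF : IsFlatSystem F) (s : S) (Y : 𝒱.Obj) (j : ℕ) :
    F.alg s Y j 0 := by
  have h := hF.alg_cl s Y j 0 (SmVar.IsCyc.zero Y.V j : Y.IsCyc j (0 : Y.Cycles))
  rwa [cycleClass, map_zero] at h

lemma act_zero {F : FlatData W Γ S} (hF : IsFlatSystem F) (Y : 𝒱.Obj) (g : Γ) :
    F.act Y g 0 = 0 := by
  have h := hF.act_smul Y g 0 0
  rwa [zero_smul, zero_smul] at h

/-- The system of the invariant classes which are algebraic in `s`. -/
def flatPred {F : FlatData W Γ S} (hF : IsFlatSystem F) (s : S) : ClassPred W where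
  P := FlatAlg F s
  gr := fun h => hF.alg_gr s _ _ _ h.1
  zero := ⟨alg_zero hF s _ _, fun g => act_zero hF _ g⟩
  add := fun ha hb => ⟨(hF.alg_linear s _ _ _ ha.1).1 _ hb.1,
    fun g => by rw [hF.act_add, ha.2 g, hb.2 g]⟩
  smul := fun r _ ha => ⟨(hF.alg_linear s _ _ _ ha.1).2 r, fun g => by rw [hF.act_smul, ha.2 g]⟩
  cl := fun hz => ⟨hF.alg_cl s _ _ _ hz, hF.act_cl _ _ _ hz⟩
  mul := fun ha hb => ⟨hF.alg_mul s _ _ _ _ _ ha.1 hb.1,
    fun g => by rw [hF.act_mul, ha.2 g, hb.2 g]⟩
  map := fun f _ a h => ⟨hF.alg_map s _ _ f _ _ h.1,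
    fun g => by have := hF.act_map _ _ f g a; rw [h.2 g] at this; exact this⟩
  push := fun f _ _ hl a h => ⟨hF.alg_push s _ _ f _ _ _ hl h.1,
    fun g => by have := hF.act_push _ _ f g a; rw [h.2 g] at this; exact this⟩

lemma flatRank_eq {F : FlatData W Γ S} (hF : IsFlatSystem F) (s : S) (Y : 𝒱.Obj) (j : ℕ) :
    Set.finrank W.K {c : W.H Y | FlatAlg F s Y j c} = finrank W.K (deg (flatPred hF s) Y j) := by
  have h : Submodule.span W.K {c : W.H Y | FlatAlg F s Y j c} = deg (flatPred hF s) Y j := by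
    apply le_antisymm
    · exact Submodule.span_le.2 fun c hc => hc
    · exact fun c hc => Submodule.subset_span hc
  rw [Set.finrank, h]

/-- Combinations of classes of relative cycles are algebraic in all points. -/
lemma alg_of_span {F : FlatData W Γ S} (hF : IsFlatSystem F) (t : S) {j : ℕ} {c : W.H Y}
    (hc : c ∈ spanCycles W Y j) : F.alg t Y j c :=
  (span_le_deg (flatPred hF t) j hc).1

lemma variational_of_relative {F : FlatData W Γ S} (hF : IsFlatSystem F) {s : S} (h : FlatAreRelative F s Y) :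
    VariationalHodgeAt F s Y :=
  fun j c hc t => alg_of_span hF t (h j c hc)

/-- **The index law for the variational Hodge conjecture.** -/
theorem flat_law {F : FlatData W Γ S} (hF : IsFlatSystem F) (s : S) (hX : SignStd W X) {D : X.Cycles}
    (hD : X.IsCyc 1 D) (hbig : Big ops X D) :
    (∀ n, 0 < relMid ops X n ∧ relMid ops X n ≤ flatMid F s X n ∧
      flatMid F s X n ≤ (n + 2) ^ (totalBetti W X ^ 2) * relMid ops X n) ∧
    (∀ n, FlatAreRelative F s (sq X n) → HomEqNum W (sq X n) →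
      flatMid F s X n = relMid ops X n) ∧
    ∀ κ, AllGood F s (pw X κ) ∨
      NearlyTwice (indexConst (totalBetti W X) κ) (flatMid F s X) (relMid ops X) := by
  obtain ⟨hA, hB⟩ := pred_law (flatPred hF s) hX hD hbig
  have e1 : ∀ n, flatMid F s X n =
      finrank W.K (deg (flatPred hF s) (sq X n) ((n + 1) * X.dim)) :=
    fun n => flatRank_eq hF s _ _
  refine ⟨fun n => ?_, fun n h1 h2 => ?_, fun κ => ?_⟩
  · rw [e1]
    exact hA n
  · rw [e1, relMid, LI.numRank_eq_finrank (by rw [dim_sq]; omega) h2]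
    have h3 : deg (flatPred hF s) (sq X n) ((n + 1) * X.dim) =
        spanCycles W (sq X n) (((n + 1) * X.dim : ℕ) : ℤ) :=
      le_antisymm (fun c hc => h1 _ c hc) (span_le_deg _ _)
    rw [h3]
  · have e2 : flatMid F s X =
        fun n => finrank W.K (deg (flatPred hF s) (sq X n) ((n + 1) * X.dim)) := funext e1
    rw [e2]
    rcases hB κ with ⟨h1, h2⟩ | h
    · have h3 : FlatAreRelative F s (pw X κ) := fun j c hc => h1 j c hc
      exact Or.inl ⟨variational_of_relative hF h3, h3, h2⟩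
    · exact Or.inr h

end Pool.Agent.N198.VI
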